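import Pool.Agent.MP_6374aa_gt.Defs

/-!
Statement level definitions: flag complexes, barycentric subdivision, closed combinatorial
3-manifolds (no orientation), realisations, summands, primeness.
-/

namespace Pool.Agent.MP_6374aa_g

open Pool.Agent.MP_6374aa_gt

variable {V : Type}

/-- The graph of the barycentric subdivision: strict inclusion. -/
def sG (V : Type) : SimpleGraph (Finset V) where
  Adj s t := s ⊂ t ∨ t ⊂ s
  symm := ⟨fun _ _ h => h.symm⟩
  loopless := ⟨fun _ h => h.elim (fun h => lt_irrefl _ h) fun h => lt_irrefl _ h⟩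

/-- The simplices of the flag complex of `G` on `A`. -/
def sA (G : SimpleGraph V) (A : Set V) : Set (Finset V) :=
  {s | s.Nonempty ∧ ↑s ⊆ A ∧ G.IsClique (s : Set V)}

/-- The geometric realisation of the flag complex of `G` on a finite vertex set `A`. -/
def Rz (G : SimpleGraph V) (A : Set V) : Set (V → ℝ) :=
  {x | (∀ v, 0 ≤ x v) ∧ (∀ v, x v ≠ 0 → v ∈ A) ∧ (∀ u v, x u ≠ 0 → x v ≠ 0 → Adq G u v) ∧
    ∑ᶠ v, x v = 1}

/-- The flag complex on `S` is a combinatorial 2-sphere: a connected closed surface all of whose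
mod 2 cocycles are coboundaries. -/
structure Sphere2 (G : SimpleGraph V) (S : Set V) : Prop where
  conn : (G.induce S).Connected
  dim : ∀ s ∈ sA G S, s.card ≤ 3
  edge : ∀ a ∈ S, ∀ b ∈ S, G.Adj a b → (Lk G S {a, b}).ncard = 2
  vert : ∀ a ∈ S, (G.induce (Lk G S {a})).Connected
  coc : ∀ θ : V → V → ZMod 2,
    (∀ u ∈ S, ∀ v ∈ S, ∀ w ∈ S, Adq G u v → Adq G v w → Adq G u w → θ u v + θ v w = θ u w) →
    ∃ χ : V → ZMod 2, ∀ u ∈ S, ∀ w ∈ S, Adq G u w → θ u w = χ u + χ w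

/-- A flag complex. -/
structure Cx where
  V : Type
  G : SimpleGraph V
  A : Set V

/-- The barycentric subdivision. -/
def Cx.sd (X : Cx) : Cx := ⟨Finset X.V, sG X.V, sA X.G X.A⟩

/-- A closed connected combinatorial 3-manifold. -/
def Cx.Closed (X : Cx) : Prop :=
  X.A.Finite ∧ (X.G.induce X.A).Connected ∧ ∀ a ∈ X.A, Sphere2 X.G (Lk X.G X.A {a})

/-- Homeomorphic realisations. -/
def Cx.Homeo (X Y : Cx) : Prop := Nonempty (Rz X.G X.A ≃ₜ Rz Y.G Y.A)

/-- `f` is an isomorphism of the full subcomplex on `B` onto the full subcomplex on `A`. -/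
def Iso {U : Type} (H : SimpleGraph U) (B : Set U) (G : SimpleGraph V) (A : Set V) (f : U → V) :
    Prop :=
  Set.BijOn f B A ∧ ∀ a ∈ B, ∀ b ∈ B, (H.Adj a b ↔ G.Adj (f a) (f b))

/-- `P` is a connected summand of `N`: an iterated barycentric subdivision of `N` is the
simplicial connected sum of a triangulation of `P` and a closed manifold. -/
def Summand (P N : Cx) : Prop :=
  ∃ (j : ℕ) (U : Type) (K : SimpleGraph U) (A R B : Set U) (v : U) (f : U → (Cx.sd^[j] N).V),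
    Cx.Closed ⟨U, K, A⟩ ∧ Cx.Closed ⟨U, K, R⟩ ∧ Graft K A R B v ∧ Cx.Homeo ⟨U, K, A⟩ P ∧
      Iso K B (Cx.sd^[j] N).G (Cx.sd^[j] N).A f

/-- The pair of realisations is the pair (3-ball, 2-sphere). -/
def Ball3 (G : SimpleGraph V) (D S : Set V) : Prop :=
  ∃ h : Rz G D ≃ₜ Metric.closedBall (0 : EuclideanSpace ℝ (Fin 3)) 1,
    ∀ x, x.1 ∈ Rz G S ↔ ‖(h x).1‖ = 1

/-- In every triangulation, every separating 2-sphere bounds a 3-ball on one side. -/
def Cx.Prime (P : Cx) : Prop :=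
  ∀ Q : Cx, Q.Closed → Q.Homeo P → ∀ S D E : Set Q.V, Sphere2 Q.G S → D ∪ E = Q.A → D ∩ E = S →
    D ≠ S → E ≠ S → (∀ a ∈ D \ S, ∀ b ∈ E \ S, ¬ Q.G.Adj a b) → Ball3 Q.G D S ∨ Ball3 Q.G E S

/-- There is a non-separating 2-sphere. -/
def Cx.NonSep (X : Cx) : Prop :=
  ∃ S ⊆ X.A, Sphere2 X.G S ∧ (X.G.induce (X.A \ S)).Connected

end Pool.Agent.MP_6374aa_g
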