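import Pool.Agent.MP_6374aa_g.SDefs

/-!
Statement level definitions: orientability and the product of a 2-sphere and a circle.
-/

namespace Pool.Agent.MP_6374aa_g

open Pool.Agent.MP_6374aa_gt

/-- The tetrahedra can be oriented coherently: `o` changes under transpositions of the vertices
and when the last vertex is replaced by the other vertex over the same triangle. -/
def Cx.Orient (X : Cx) : Prop :=
  ∃ o : X.V → X.V → X.V → X.V → Bool, ∀ a ∈ X.A, ∀ b ∈ Lk X.G X.A {a}, ∀ c ∈ Lk X.G X.A {a, b},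
    ∀ d ∈ Lk X.G X.A {a, b, c}, o b a c d ≠ o a b c d ∧ o a c b d ≠ o a b c d ∧
      o a b d c ≠ o a b c d ∧ ∀ e ∈ Lk X.G X.A {a, b, c}, e ≠ d → o a b c e ≠ o a b c d

/-- The realisation is homeomorphic to the product of the 2-sphere and the circle. -/
def Cx.S2S1 (X : Cx) : Prop :=
  Nonempty (Rz X.G X.A ≃ₜ Metric.sphere (0 : EuclideanSpace ℝ (Fin 3)) 1 × Circle)

end Pool.Agent.MP_6374aa_g
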