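import Pool.Agent.MP_6374aa_g.SDefs2

/-!
Statement level definitions: connected sums up to homeomorphism and prime manifolds.
-/

namespace Pool.Agent.MP_6374aa_g

open Pool.Agent.MP_6374aa_gt

/-- `N` is homeomorphic to a connected sum of `P` and `R`. -/
def CSum (P R N : Cx) : Prop :=
  ∃ (U : Type) (K : SimpleGraph U) (A M B : Set U) (v : U), Cx.Closed ⟨U, K, A⟩ ∧
    Cx.Closed ⟨U, K, M⟩ ∧ Graft K A M B v ∧ Cx.Homeo ⟨U, K, A⟩ P ∧ Cx.Homeo ⟨U, K, M⟩ R ∧
      Cx.Homeo ⟨U, K, B⟩ N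

/-- The realisation is homeomorphic to the 3-sphere. -/
def Cx.Sph3 (X : Cx) : Prop :=
  Nonempty (Rz X.G X.A ≃ₜ Metric.sphere (0 : EuclideanSpace ℝ (Fin 4)) 1)

/-- In every connected sum decomposition one of the factors is a 3-sphere. -/
def Cx.IsPrime (P : Cx) : Prop := ∀ A R, CSum A R P → A.Sph3 ∨ R.Sph3

/-- Some triangulation contains a non-separating 2-sphere. -/
def Cx.HasNS (X : Cx) : Prop := ∃ Q : Cx, Q.Closed ∧ Q.Homeo X ∧ Q.NonSep

end Pool.Agent.MP_6374aa_g
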